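import Pool.Agent.helper20.FX.Spec

/-!
# Project fm: LGI, the interpolation identity
-/

set_option autoImplicit false

namespace Pool.Agent.FXM

open Finset

theorem LGI : LGI_stmt := by
  intro U x hU
  have hinj : Set.InjOn (fun j : ℕ => -((2 : ℚ) ^ j)⁻¹) (U : Set ℕ) := by
    intro a _ b _ h
    have h1 : ((2 : ℚ) ^ a)⁻¹ = ((2 : ℚ) ^ b)⁻¹ := neg_injective h
    have h2 : (2 : ℚ) ^ a = (2 : ℚ) ^ b := inv_injective h1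
    exact pow_right_injective₀ (by norm_num) (by norm_num) h2
  have h := Lagrange.sum_basis hinj hU
  have h2 := congrArg (Polynomial.eval x) h
  rw [Polynomial.eval_finsetSum, Polynomial.eval_one] at h2
  refine Eq.trans (Finset.sum_congr rfl fun n _ => ?_) h2
  rw [Lagrange.basis, Polynomial.eval_prod]
  refine Finset.prod_congr rfl fun j _ => ?_
  have hj : ((2 : ℚ) ^ j)⁻¹ ≠ 0 := inv_ne_zero (pow_ne_zero _ (by norm_num))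
  have hj' : (2 : ℚ) ^ j ≠ 0 := pow_ne_zero _ (by norm_num)
  have hn' : (2 : ℚ) ^ n ≠ 0 := pow_ne_zero _ (by norm_num)
  have e1 : -((2 : ℚ) ^ n)⁻¹ - -((2 : ℚ) ^ j)⁻¹ = ((2 : ℚ) ^ j)⁻¹ * (1 - (2 : ℚ) ^ j / 2 ^ n) := by
    field_simp
    ring
  have e2 : x - -((2 : ℚ) ^ j)⁻¹ = ((2 : ℚ) ^ j)⁻¹ * (x * 2 ^ j + 1) := by
    field_simp
    ring
  have e3 : Polynomial.eval x (Lagrange.basisDivisor (-((2 : ℚ) ^ n)⁻¹) (-((2 : ℚ) ^ j)⁻¹)) =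
      (-((2 : ℚ) ^ n)⁻¹ - -((2 : ℚ) ^ j)⁻¹)⁻¹ * (x - -((2 : ℚ) ^ j)⁻¹) := by
    rw [Lagrange.basisDivisor, Polynomial.eval_mul, Polynomial.eval_C, Polynomial.eval_sub,
      Polynomial.eval_X, Polynomial.eval_C]
  rw [e3, e1, e2, mul_inv, div_eq_mul_inv]
  have e4 : (((2 : ℚ) ^ j)⁻¹)⁻¹ * ((2 : ℚ) ^ j)⁻¹ = 1 := inv_mul_cancel₀ hj
  calc (x * 2 ^ j + 1) * (1 - (2 : ℚ) ^ j / 2 ^ n)⁻¹
      = ((((2 : ℚ) ^ j)⁻¹)⁻¹ * ((2 : ℚ) ^ j)⁻¹) *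
          ((x * 2 ^ j + 1) * (1 - (2 : ℚ) ^ j / 2 ^ n)⁻¹) := by rw [e4, one_mul]
    _ = _ := by ring

end Pool.Agent.FXM
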